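import Pool.Agent.W313.HB.Stm

/-! HB-MULT -/

set_option autoImplicit false

namespace Pool.Agent.W108.HB

open Finset Polynomial
open Pool.Agent.W313.HB
open scoped NumberTheorySymbols

/-! ### sums -/

theorem double_sum (T W : Finset ℕ) (a : ℕ → ℕ → ℝ) :
    ∑ u ∈ T, ∑ v ∈ T, (∑ q ∈ W, a q u * a q v) ^ 2 =
      ∑ q ∈ W, ∑ r ∈ W, (∑ u ∈ T, a q u * a r u) ^ 2 := by
  have h1 : ∀ u v, (∑ q ∈ W, a q u * a q v) ^ 2 =
      ∑ q ∈ W, ∑ r ∈ W, (a q u * a r u) * (a q v * a r v) := by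
    intro u v
    rw [sq, Finset.sum_mul_sum]
    refine Finset.sum_congr rfl fun q _ => Finset.sum_congr rfl fun r _ => ?_
    ring
  have h2 : ∀ q r, (∑ u ∈ T, a q u * a r u) ^ 2 =
      ∑ u ∈ T, ∑ v ∈ T, (a q u * a r u) * (a q v * a r v) := by
    intro q r
    rw [sq, Finset.sum_mul_sum]
  simp only [h1, h2]
  calc ∑ u ∈ T, ∑ v ∈ T, ∑ q ∈ W, ∑ r ∈ W, (a q u * a r u) * (a q v * a r v)
      = ∑ u ∈ T, ∑ q ∈ W, ∑ v ∈ T, ∑ r ∈ W, (a q u * a r u) * (a q v * a r v) :=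
        Finset.sum_congr rfl fun u _ => Finset.sum_comm
    _ = ∑ q ∈ W, ∑ u ∈ T, ∑ v ∈ T, ∑ r ∈ W, (a q u * a r u) * (a q v * a r v) :=
        Finset.sum_comm
    _ = ∑ q ∈ W, ∑ u ∈ T, ∑ r ∈ W, ∑ v ∈ T, (a q u * a r u) * (a q v * a r v) :=
        Finset.sum_congr rfl fun q _ => Finset.sum_congr rfl fun u _ => Finset.sum_comm
    _ = ∑ q ∈ W, ∑ r ∈ W, ∑ u ∈ T, ∑ v ∈ T, (a q u * a r u) * (a q v * a r v) :=
        Finset.sum_congr rfl fun q _ => Finset.sum_comm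

theorem per_shift (g : ℕ → ℝ) (N : ℕ) (hg : ∀ x, g (x + N) = g x) (b : ℕ) :
    ∑ i ∈ range N, g (b + i) = ∑ i ∈ range N, g i := by
  induction b with
  | zero => simp
  | succ b ih =>
    rw [← ih]
    have h1 := Finset.sum_range_succ' (fun i => g (b + i)) N
    have h2 := Finset.sum_range_succ (fun i => g (b + i)) N
    have h3 : ∑ i ∈ range N, g (b + 1 + i) = ∑ i ∈ range N, g (b + (i + 1)) :=
      Finset.sum_congr rfl fun i _ => by congr 1; ring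
    rw [h3]
    have h4 : g (b + N) = g (b + 0) := hg b
    linarith

theorem per_mul (g : ℕ → ℝ) (N : ℕ) (hg : ∀ x, g (x + N) = g x) (b k : ℕ) :
    ∑ i ∈ range (k * N), g (b + i) = k * ∑ i ∈ range N, g i := by
  induction k with
  | zero => simp
  | succ k ih =>
    rw [add_mul, one_mul, Finset.sum_range_add, ih]
    have h1 : ∑ x ∈ range N, g (b + (k * N + x)) = ∑ i ∈ range N, g i := by
      rw [← per_shift g N hg (b + k * N)]
      exact Finset.sum_congr rfl fun i _ => by congr 1; ring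
    rw [h1]
    push_cast
    ring

theorem per_sum (g : ℕ → ℝ) (N : ℕ) (hN : 0 < N) (hg : ∀ x, g (x + N) = g x)
    (hb : ∀ x, |g x| ≤ 1) (b L : ℕ) :
    |∑ i ∈ range L, g (b + i)| ≤ (L : ℝ) / N * |∑ i ∈ range N, g i| + N := by
  have hNr : (0 : ℝ) < N := by exact_mod_cast hN
  obtain ⟨k, r, hr, hL⟩ : ∃ k r, r < N ∧ L = k * N + r :=
    ⟨L / N, L % N, Nat.mod_lt _ hN, by rw [mul_comm]; exact (Nat.div_add_mod L N).symm⟩
  have hk : (k : ℝ) ≤ (L : ℝ) / N := by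
    rw [le_div_iff₀ hNr, hL]
    push_cast
    have : (0 : ℝ) ≤ r := Nat.cast_nonneg _
    linarith
  rw [show range L = range (k * N + r) by rw [hL], Finset.sum_range_add, per_mul g N hg]
  refine (abs_add_le _ _).trans (add_le_add ?_ ?_)
  · rw [abs_mul, abs_of_nonneg (Nat.cast_nonneg k)]
    exact mul_le_mul_of_nonneg_right hk (abs_nonneg _)
  · refine (Finset.abs_sum_le_sum_abs _ _).trans ?_
    calc ∑ x ∈ range r, |g (b + (k * N + x))| ≤ ∑ x ∈ range r, (1 : ℝ) :=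
          Finset.sum_le_sum fun x _ => hb _
      _ = r := by simp
      _ ≤ N := by exact_mod_cast hr.le

theorem crt_sum (A B : ℕ → ℝ) (q r : ℕ) (hq : 0 < q) (hr : 0 < r) (hc : Nat.Coprime q r)
    (hA : ∀ x, A (x % q) = A x) (hB : ∀ x, B (x % r) = B x) :
    ∑ x ∈ range (q * r), A x * B x = (∑ x ∈ range q, A x) * ∑ x ∈ range r, B x := by
  rw [Finset.sum_mul_sum, ← Finset.sum_product']
  have hinj : Set.InjOn (fun x : ℕ => (x % q, x % r)) (range (q * r) : Set ℕ) := by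
    intro x hx y hy hxy
    have hx' := Finset.mem_range.1 hx
    have hy' := Finset.mem_range.1 hy
    have h1 : x ≡ y [MOD q] := (Prod.ext_iff.1 hxy).1
    have h2 : x ≡ y [MOD r] := (Prod.ext_iff.1 hxy).2
    have h3 := (Nat.modEq_and_modEq_iff_modEq_mul hc).1 ⟨h1, h2⟩
    exact Nat.ModEq.eq_of_lt_of_lt h3 hx' hy'
  have hmaps : ∀ x ∈ range (q * r), (x % q, x % r) ∈ range q ×ˢ range r := fun x _ =>
    Finset.mem_product.2 ⟨Finset.mem_range.2 (Nat.mod_lt _ hq), Finset.mem_range.2 (Nat.mod_lt _ hr)⟩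
  refine Finset.sum_nbij (fun x => (x % q, x % r)) hmaps hinj ?_ ?_
  · refine Finset.surjOn_of_injOn_of_card_le _ hmaps hinj ?_
    rw [Finset.card_product, Finset.card_range, Finset.card_range, Finset.card_range]
  · intro x _
    show A x * B x = A (x % q) * B (x % r)
    rw [hA, hB]

/-! ### symbols -/

/-- the symbol of a value -/
noncomputable def js (F : ℤ[X]) (t1 M q u : ℕ) : ℝ := ((jacobiSym (val F t1 M u) q : ℤ) : ℝ)

theorem js_abs (F : ℤ[X]) (t1 M q u : ℕ) : |js F t1 M q u| ≤ 1 := by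
  unfold js
  rcases jacobiSym.trichotomy (val F t1 M u) q with h | h | h <;> rw [h] <;> simp

theorem js_mod (F : ℤ[X]) (t1 M q u v : ℕ) (h : u ≡ v [MOD q]) : js F t1 M q u = js F t1 M q v := by
  unfold js
  have h1 : val F t1 M u % (q : ℤ) = val F t1 M v % (q : ℤ) := by
    have h2 : ((q : ℤ)) ∣ val F t1 M u - val F t1 M v := by
      have h3 : ((t1 : ℤ) + M * u) - ((t1 : ℤ) + M * v) ∣ val F t1 M u - val F t1 M v :=
        Polynomial.sub_dvd_eval_sub _ _ F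
      refine dvd_trans ?_ h3
      have h4 : ((t1 : ℤ) + M * u) - ((t1 : ℤ) + M * v) = M * ((u : ℤ) - v) := by ring
      rw [h4]
      apply Dvd.dvd.mul_left
      exact (Nat.modEq_iff_dvd.1 h.symm)
    exact Int.ModEq.symm (Int.modEq_iff_dvd.2 (by simpa using h2))
  rw [jacobiSym.mod_left' h1]

theorem corr (F : ℤ[X]) (z0 : ℕ) (C : ℝ) (hC : 0 ≤ C)
    (hW : ∀ q : ℕ, q.Prime → z0 ≤ q → ∀ t1 M : ℕ, ¬ q ∣ M →
      |((∑ x ∈ range q, jacobiSym (val F t1 M x) q : ℤ) : ℝ)| ≤ C * √(q : ℝ))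
    (U t1 M q r : ℕ) (hq : q.Prime) (hr : r.Prime) (hqr : q ≠ r) (hqz : z0 ≤ q) (hrz : z0 ≤ r)
    (hqM : ¬ q ∣ M) (hrM : ¬ r ∣ M) :
    |∑ u ∈ Ioc U (2 * U), js F t1 M q u * js F t1 M r u| ≤
      (U : ℝ) / (q * r) * (C ^ 2 * (√(q : ℝ) * √(r : ℝ))) + q * r := by
  have e1 : ∑ u ∈ Ioc U (2 * U), js F t1 M q u * js F t1 M r u =
      ∑ i ∈ range U, js F t1 M q (U + 1 + i) * js F t1 M r (U + 1 + i) := by
    have h1 : Ioc U (2 * U) = Ico (U + 1) (2 * U + 1) := by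
      ext x
      simp only [Finset.mem_Ioc, Finset.mem_Ico]
      omega
    rw [h1, Finset.sum_Ico_eq_sum_range]
    have h2 : 2 * U + 1 - (U + 1) = U := by omega
    rw [h2]
  have hper : ∀ x, js F t1 M q (x + q * r) * js F t1 M r (x + q * r) =
      js F t1 M q x * js F t1 M r x := by
    intro x
    rw [js_mod F t1 M q (x + q * r) x (by simp [Nat.ModEq]),
      js_mod F t1 M r (x + q * r) x (by simp [Nat.ModEq])]
  have hbd : ∀ x, |js F t1 M q x * js F t1 M r x| ≤ 1 := by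
    intro x
    rw [abs_mul]
    exact mul_le_one₀ (js_abs _ _ _ _ _) (abs_nonneg _) (js_abs _ _ _ _ _)
  have h2 := per_sum (fun x => js F t1 M q x * js F t1 M r x) (q * r) (Nat.mul_pos hq.pos hr.pos)
    hper hbd (U + 1) U
  have h3 := crt_sum (js F t1 M q) (js F t1 M r) q r hq.pos hr.pos ((Nat.coprime_primes hq hr).2 hqr)
    (fun x => js_mod F t1 M q _ _ (Nat.mod_modEq x q)) (fun x => js_mod F t1 M r _ _ (Nat.mod_modEq x r))
  rw [h3] at h2
  rw [e1]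
  refine h2.trans ?_
  push_cast
  have h4 : |∑ x ∈ range q, js F t1 M q x| ≤ C * √(q : ℝ) := by
    have := hW q hq hqz t1 M hqM
    push_cast at this
    exact this
  have h5 : |∑ x ∈ range r, js F t1 M r x| ≤ C * √(r : ℝ) := by
    have := hW r hr hrz t1 M hrM
    push_cast at this
    exact this
  have h6 : |(∑ x ∈ range q, js F t1 M q x) * ∑ x ∈ range r, js F t1 M r x| ≤
      C ^ 2 * (√(q : ℝ) * √(r : ℝ)) := by
    rw [abs_mul]
    calc _ ≤ (C * √(q : ℝ)) * (C * √(r : ℝ)) := mul_le_mul h4 h5 (abs_nonneg _) (by positivity)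
      _ = _ := by ring
  have h7 : (0 : ℝ) ≤ (U : ℝ) / (q * r) := by positivity
  linarith [mul_le_mul_of_nonneg_left h6 h7]

/-- few large primes divide an integer -/
theorem few (W : Finset ℕ) (Y k : ℕ) (hW : ∀ q ∈ W, q.Prime ∧ Y < q) (s : ℕ) (hs : s ≠ 0)
    (hsk : s < (Y + 1) ^ k) : (W.filter (fun q => q ∣ s)).card ≤ k := by
  by_contra hcon
  push Not at hcon
  have h1 : ∏ q ∈ W.filter (fun q => q ∣ s), q ∣ s := by
    refine Finset.prod_primes_dvd s (fun q hq => ?_) (fun q hq => (Finset.mem_filter.1 hq).2)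
    exact (hW q (Finset.mem_filter.1 hq).1).1.prime
  have h2 : (Y + 1) ^ (W.filter (fun q => q ∣ s)).card ≤ ∏ q ∈ W.filter (fun q => q ∣ s), q := by
    refine Finset.pow_card_le_prod _ _ _ fun q hq => ?_
    exact (hW q (Finset.mem_filter.1 hq).1).2
  have h3 : (Y + 1) ^ k ≤ (Y + 1) ^ (W.filter (fun q => q ∣ s)).card :=
    Nat.pow_le_pow_right (Nat.succ_pos _) hcon.le
  have h4 := Nat.le_of_dvd (Nat.pos_of_ne_zero hs) h1
  omega

theorem pair_low (F : ℤ[X]) (t1 M u v : ℕ) (W : Finset ℕ) (hW : ∀ q ∈ W, q.Prime) (s : ℤ)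
    (hs : val F t1 M u * val F t1 M v = s * s) :
    (W.card : ℝ) - ((W.filter (fun q => q ∣ s.natAbs)).card : ℝ) ≤
      ∑ q ∈ W, js F t1 M q u * js F t1 M q v := by
  have h1 : (W.card : ℝ) - ((W.filter (fun q => q ∣ s.natAbs)).card : ℝ) =
      ∑ q ∈ W, ((1 : ℝ) - if q ∣ s.natAbs then 1 else 0) := by
    rw [Finset.sum_sub_distrib, Finset.sum_const, nsmul_eq_mul, mul_one, Finset.card_filter]
    push_cast
    rfl
  rw [h1]
  refine Finset.sum_le_sum fun q hq => ?_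
  have h2 : js F t1 M q u * js F t1 M q v = ((jacobiSym s q : ℤ) : ℝ) ^ 2 := by
    unfold js
    rw [← Int.cast_mul, ← jacobiSym.mul_left, hs, jacobiSym.mul_left]
    push_cast
    ring
  rw [h2]
  split_ifs with h3
  · rw [sub_self]
    exact sq_nonneg _
  · have h4 : jacobiSym s q ^ 2 = 1 := by
      apply jacobiSym.sq_one
      show Nat.gcd s.natAbs (q : ℤ).natAbs = 1
      rw [Int.natAbs_natCast]
      exact Nat.Coprime.symm (((hW q hq).coprime_iff_not_dvd).2 h3)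
    have h5 : ((jacobiSym s q : ℤ) : ℝ) ^ 2 = 1 := by exact_mod_cast h4
    rw [h5, sub_zero]

theorem size (F : ℤ[X]) (hF : F ≠ 0) : ∃ d U0 : ℕ, ∀ U : ℕ, U0 ≤ U → ∀ M t1 u : ℕ, 1 ≤ M → M ≤ U →
    t1 ≤ U → U < u → u ≤ 2 * U → val F t1 M u ≠ 0 ∧ |val F t1 M u| ≤ (U : ℤ) ^ d := by
  obtain ⟨R, hR⟩ : ∃ R : ℕ, ∀ x : ℤ, F.eval x = 0 → x ≤ R := by
    have h1 : ∀ x : ℤ, F.eval x = 0 → x ∈ F.roots.toFinset := by
      intro x hx
      rw [Multiset.mem_toFinset, Polynomial.mem_roots hF]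
      exact hx
    refine ⟨F.roots.toFinset.sup Int.natAbs, fun x hx => ?_⟩
    have h2 : x.natAbs ≤ F.roots.toFinset.sup Int.natAbs := Finset.le_sup (h1 x hx)
    have h3 : x ≤ (x.natAbs : ℤ) := Int.le_natAbs
    exact h3.trans (by exact_mod_cast h2)
  obtain ⟨A, hA⟩ : ∃ A : ℕ, (A : ℤ) = ∑ i ∈ range (F.natDegree + 1), |F.coeff i| :=
    ⟨(∑ i ∈ range (F.natDegree + 1), |F.coeff i|).toNat,
      Int.toNat_of_nonneg (Finset.sum_nonneg fun i _ => abs_nonneg _)⟩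
  refine ⟨3 * F.natDegree + 1, max (max R A) 3, fun U hU M t1 u hM hMU ht hu1 hu2 => ?_⟩
  have hU1 : R ≤ U := le_trans (le_trans (le_max_left _ _) (le_max_left _ _)) hU
  have hU2 : A ≤ U := le_trans (le_trans (le_max_right _ _) (le_max_left _ _)) hU
  have hU3 : 3 ≤ U := le_trans (le_max_right _ _) hU
  have hx1 : (U : ℤ) < (t1 : ℤ) + M * u := by
    have h1 : U < t1 + M * u := by nlinarith
    exact_mod_cast h1
  have hx2 : (t1 : ℤ) + M * u ≤ (U : ℤ) ^ 3 := by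
    have h1 : t1 + M * u ≤ U ^ 3 := by
      have h2 : M * u ≤ U * (2 * U) := Nat.mul_le_mul hMU hu2
      nlinarith [Nat.mul_le_mul hU3 (le_refl (U * U))]
    exact_mod_cast h1
  refine ⟨fun h0 => ?_, ?_⟩
  · have h1 := hR _ h0
    have h2 : (R : ℤ) ≤ U := by exact_mod_cast hU1
    linarith
  · unfold Pool.Agent.W313.HB.val
    set x : ℤ := (t1 : ℤ) + M * u with hx
    have hU0 : (1 : ℤ) ≤ U := by
      have : 1 ≤ U := by omega
      exact_mod_cast this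
    have hx3 : 1 ≤ x := by linarith
    rw [Polynomial.eval_eq_sum_range]
    calc |∑ i ∈ range (F.natDegree + 1), F.coeff i * x ^ i| ≤
        ∑ i ∈ range (F.natDegree + 1), |F.coeff i * x ^ i| := Finset.abs_sum_le_sum_abs _ _
      _ ≤ ∑ i ∈ range (F.natDegree + 1), |F.coeff i| * ((U : ℤ) ^ 3) ^ F.natDegree := by
          refine Finset.sum_le_sum fun i hi => ?_
          have hi' := Finset.mem_range.1 hi
          rw [abs_mul, abs_of_nonneg (pow_nonneg (show (0 : ℤ) ≤ x by linarith) i)]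
          refine mul_le_mul_of_nonneg_left ?_ (abs_nonneg _)
          calc x ^ i ≤ ((U : ℤ) ^ 3) ^ i := pow_le_pow_left₀ (by linarith) hx2 i
            _ ≤ ((U : ℤ) ^ 3) ^ F.natDegree :=
              pow_le_pow_right₀ (one_le_pow₀ hU0) (by omega)
      _ = (A : ℤ) * ((U : ℤ) ^ 3) ^ F.natDegree := by rw [hA, Finset.sum_mul]
      _ ≤ (U : ℤ) * ((U : ℤ) ^ 3) ^ F.natDegree := by
          refine mul_le_mul_of_nonneg_right (by exact_mod_cast hU2) (by positivity)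
      _ = (U : ℤ) ^ (3 * F.natDegree + 1) := by ring

theorem cheb (y : ℕ) (hy : 1000000 ≤ y) : 2 * y + 100 ≤ Nat.primeCounting (y ^ 2) := by
  have h1 := Chebyshev.pi_ge (y ^ 2)
  have hyr : (1000000 : ℝ) ≤ y := by exact_mod_cast hy
  obtain ⟨s, hs⟩ : ∃ s : ℝ, s = √(y : ℝ) := ⟨_, rfl⟩
  have hs2 : s ^ 2 = y := by rw [hs]; exact Real.sq_sqrt (by linarith)
  have hs0 : 0 ≤ s := by rw [hs]; exact Real.sqrt_nonneg _
  have hs1 : 1000 ≤ s := by nlinarith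
  have hlogn : Real.log ((y ^ 2 : ℕ) : ℝ) ≤ 4 * s := by
    push_cast
    rw [← hs2, Real.log_pow, Real.log_pow]
    have := Real.log_le_sub_one_of_pos (show 0 < s by linarith)
    push_cast
    linarith
  have hlogp : 0 < Real.log ((y ^ 2 : ℕ) : ℝ) := by
    apply Real.log_pos
    push_cast
    nlinarith
  have hlog1 : Real.log (((y ^ 2 : ℕ) : ℝ) + 1) ≤ 2 * y := by
    have h2 : Real.log (((y ^ 2 : ℕ) : ℝ) + 1) ≤ Real.log (((y : ℝ) + 1) ^ 2) := by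
      apply Real.log_le_log (by positivity)
      push_cast
      nlinarith
    rw [Real.log_pow] at h2
    have h3 := Real.log_le_sub_one_of_pos (show (0 : ℝ) < (y : ℝ) + 1 by linarith)
    push_cast at h2 ⊢
    linarith
  have h2 : (2 * (y : ℝ) + 100) ≤
      (((y ^ 2 : ℕ) : ℝ) * Real.log 2 - Real.log (((y ^ 2 : ℕ) : ℝ) + 1)) /
        Real.log ((y ^ 2 : ℕ) : ℝ) := by
    rw [le_div_iff₀ hlogp]
    have h4 : (2 * (y : ℝ) + 100) * Real.log ((y ^ 2 : ℕ) : ℝ) ≤ (2 * (y : ℝ) + 100) * (4 * s) :=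
      mul_le_mul_of_nonneg_left hlogn (by linarith)
    have h5 : (0.69 : ℝ) < Real.log 2 := by linarith [Real.log_two_gt_d9]
    have h6 : ((y ^ 2 : ℕ) : ℝ) * 0.69 ≤ ((y ^ 2 : ℕ) : ℝ) * Real.log 2 :=
      mul_le_mul_of_nonneg_left h5.le (by positivity)
    have h7 : ((y ^ 2 : ℕ) : ℝ) = s ^ 4 := by
      push_cast
      rw [← hs2]
      ring
    rw [h7] at h6 ⊢
    rw [h7] at hlog1 h4
    rw [← hs2] at h4 hlog1 ⊢
    have h8 : (2 * s ^ 2 + 100) * (4 * s) + 2 * s ^ 2 ≤ s ^ 4 * 0.69 := by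
      have e1 : 1000 * s ^ 3 ≤ s ^ 4 := by
        have := mul_le_mul_of_nonneg_right hs1 (pow_nonneg hs0 3)
        nlinarith
      have e2 : 1000 * s ^ 2 ≤ s ^ 3 := by
        have := mul_le_mul_of_nonneg_right hs1 (pow_nonneg hs0 2)
        nlinarith
      have e3 : 1000 * s ≤ s ^ 2 := by nlinarith
      nlinarith
    linarith
  have h3 := h2.trans h1
  exact_mod_cast h3

theorem card_W (y M U : ℕ) (hy : 1000000 ≤ y) (hM : 1 ≤ M) (hMU : M ≤ U) (hU : U < (y + 1) ^ 10) :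
    y ≤ ((Ioc y (y ^ 2)).filter (fun q => q.Prime ∧ ¬ q ∣ M)).card := by
  classical
  have h1 := cheb y hy
  have h2 : Nat.primeCounting (y ^ 2) = ((range (y ^ 2 + 1)).filter Nat.Prime).card := by
    rw [Nat.primeCounting, ← Nat.primesBelow_card_eq_primeCounting']
    rfl
  have h3 : (range (y ^ 2 + 1)).filter Nat.Prime ⊆
      ((Ioc y (y ^ 2)).filter (fun q => q.Prime ∧ ¬ q ∣ M) ∪
        ((Ioc y (y ^ 2)).filter Nat.Prime).filter (fun q => q ∣ M)) ∪ range (y + 1) := by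
    intro q hq
    rw [Finset.mem_filter, Finset.mem_range] at hq
    rw [Finset.mem_union, Finset.mem_union, Finset.mem_filter, Finset.mem_filter, Finset.mem_filter,
      Finset.mem_Ioc, Finset.mem_range]
    by_cases h4 : q < y + 1
    · exact Or.inr h4
    · left
      by_cases h5 : q ∣ M
      · right
        exact ⟨⟨⟨by omega, by omega⟩, hq.2⟩, h5⟩
      · left
        exact ⟨⟨by omega, by omega⟩, hq.2, h5⟩
  have h4 := Finset.card_le_card h3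
  have h5 := Finset.card_union_le ((Ioc y (y ^ 2)).filter (fun q => q.Prime ∧ ¬ q ∣ M) ∪
        ((Ioc y (y ^ 2)).filter Nat.Prime).filter (fun q => q ∣ M)) (range (y + 1))
  have h6 := Finset.card_union_le ((Ioc y (y ^ 2)).filter (fun q => q.Prime ∧ ¬ q ∣ M))
        (((Ioc y (y ^ 2)).filter Nat.Prime).filter (fun q => q ∣ M))
  have h7 : (((Ioc y (y ^ 2)).filter Nat.Prime).filter (fun q => q ∣ M)).card ≤ 10 := by
    refine few _ y 10 (fun q hq => ?_) M (by omega) (by omega)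
    rw [Finset.mem_filter, Finset.mem_Ioc] at hq
    exact ⟨hq.2, hq.1.1⟩
  rw [Finset.card_range] at h5
  omega

open Classical in
theorem assemble (F : ℤ[X]) (z0 : ℕ) (C : ℝ) (hC : 0 ≤ C)
    (hW : ∀ q : ℕ, q.Prime → z0 ≤ q → ∀ t1 M : ℕ, ¬ q ∣ M →
      |((∑ x ∈ range q, jacobiSym (val F t1 M x) q : ℤ) : ℝ)| ≤ C * √(q : ℝ))
    (d U1 : ℕ) (hsize : ∀ U : ℕ, U1 ≤ U → ∀ M t1 u : ℕ, 1 ≤ M → M ≤ U →
      t1 ≤ U → U < u → u ≤ 2 * U → val F t1 M u ≠ 0 ∧ |val F t1 M u| ≤ (U : ℤ) ^ d)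
    (y U M t1 : ℕ) (hy1 : 1000000 ≤ y) (hy2 : z0 ≤ y) (hy3 : 20 * d + 2 ≤ y) (hyU : y ^ 10 ≤ U)
    (hUy : U < (y + 1) ^ 10) (hU1 : U1 ≤ U) (hM : 1 ≤ M) (hMU : M ≤ U) (ht : t1 ≤ U) :
    ((((Ioc U (2 * U)) ×ˢ (Ioc U (2 * U))).filter
      (fun x : ℕ × ℕ => IsSquare (val F t1 M x.1 * val F t1 M x.2))).card : ℝ) ≤
      4 * (1 + (C ^ 2 + 1) ^ 2) * ((U : ℝ) ^ 2 / y) := by
  set T := Ioc U (2 * U) with hT
  set W := (Ioc y (y ^ 2)).filter (fun q => q.Prime ∧ ¬ q ∣ M) with hWd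
  set P := (T ×ˢ T).filter (fun x : ℕ × ℕ => IsSquare (val F t1 M x.1 * val F t1 M x.2)) with hP
  have hWc : y ≤ W.card := card_W y M U hy1 hM hMU hUy
  have hWm : ∀ q ∈ W, q.Prime ∧ ¬ q ∣ M ∧ y < q ∧ q ≤ y ^ 2 := by
    intro q hq
    rw [hWd, Finset.mem_filter, Finset.mem_Ioc] at hq
    exact ⟨hq.2.1, hq.2.2, hq.1.1, hq.1.2⟩
  have hy0 : (0 : ℝ) < y := by
    have : 0 < y := by omega
    exact_mod_cast this
  have hy1r : (1 : ℝ) ≤ y := by
    have : 1 ≤ y := by omega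
    exact_mod_cast this
  have hn : (y : ℝ) ≤ W.card := by exact_mod_cast hWc
  have hn0 : (0 : ℝ) < W.card := hy0.trans_le hn
  have hyUr : (y : ℝ) ^ 10 ≤ U := by exact_mod_cast hyU
  have hU0 : (0 : ℝ) < U := lt_of_lt_of_le (by positivity) hyUr
  set n : ℝ := (W.card : ℝ) with hnd
  set B : ℝ := (C ^ 2 + 1) * U / y with hB
  have hB0 : 0 ≤ B := by positivity
  -- lower bound
  have hlow : ∀ x ∈ P, (n / 2) ^ 2 ≤ (∑ q ∈ W, js F t1 M q x.1 * js F t1 M q x.2) ^ 2 := by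
    intro x hx
    rw [hP, Finset.mem_filter, Finset.mem_product, hT, Finset.mem_Ioc, Finset.mem_Ioc] at hx
    obtain ⟨⟨⟨h1, h2⟩, h3, h4⟩, s, hs⟩ := hx
    obtain ⟨ha, ha'⟩ := hsize U hU1 M t1 x.1 hM hMU ht h1 h2
    obtain ⟨hb, hb'⟩ := hsize U hU1 M t1 x.2 hM hMU ht h3 h4
    have hs0 : s ≠ 0 := by
      rintro rfl
      rw [mul_zero] at hs
      exact (mul_ne_zero ha hb) hs
    have hsa : s.natAbs ≠ 0 := Int.natAbs_ne_zero.2 hs0
    have hsb : s.natAbs < (y + 1) ^ (10 * d + 1) := by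
      have h5 : (s.natAbs : ℤ) * s.natAbs ≤ (U : ℤ) ^ d * (U : ℤ) ^ d := by
        rw [← Int.abs_eq_natAbs, ← abs_mul, ← hs, abs_mul]
        exact mul_le_mul ha' hb' (abs_nonneg _) (by positivity)
      have h6 : s.natAbs * s.natAbs ≤ U ^ d * U ^ d := by exact_mod_cast h5
      have h7 : s.natAbs ≤ U ^ d := Nat.mul_self_le_mul_self_iff.1 h6
      have h8 : U ^ d ≤ ((y + 1) ^ 10) ^ d := Nat.pow_le_pow_left hUy.le d
      have h9 : ((y + 1) ^ 10) ^ d = (y + 1) ^ (10 * d) := (pow_mul _ _ _).symm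
      have h10 : (y + 1) ^ (10 * d) < (y + 1) ^ (10 * d + 1) :=
        Nat.pow_lt_pow_right (by omega) (by omega)
      omega
    have h5 := few W y (10 * d + 1) (fun q hq => ⟨(hWm q hq).1, (hWm q hq).2.2.1⟩) s.natAbs hsa hsb
    have h6 := pair_low F t1 M x.1 x.2 W (fun q hq => (hWm q hq).1) s hs
    have h7 : ((W.filter (fun q => q ∣ s.natAbs)).card : ℝ) ≤ n / 2 := by
      have h8 : 2 * (W.filter (fun q => q ∣ s.natAbs)).card ≤ W.card := by omega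
      have h9 : (2 : ℝ) * ((W.filter (fun q => q ∣ s.natAbs)).card : ℝ) ≤ W.card := by
        exact_mod_cast h8
      rw [hnd]
      linarith
    refine pow_le_pow_left₀ (by positivity) ?_ 2
    linarith
  have h1 : (P.card : ℝ) * (n / 2) ^ 2 ≤
      ∑ u ∈ T, ∑ v ∈ T, (∑ q ∈ W, js F t1 M q u * js F t1 M q v) ^ 2 := by
    rw [← Finset.sum_product']
    calc (P.card : ℝ) * (n / 2) ^ 2 = ∑ x ∈ P, (n / 2) ^ 2 := by
          rw [Finset.sum_const, nsmul_eq_mul]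
      _ ≤ ∑ x ∈ P, (∑ q ∈ W, js F t1 M q x.1 * js F t1 M q x.2) ^ 2 := Finset.sum_le_sum hlow
      _ ≤ _ := Finset.sum_le_sum_of_subset_of_nonneg (Finset.filter_subset _ _)
          fun x _ _ => sq_nonneg _
  rw [double_sum] at h1
  -- upper bound
  have hdiag : ∀ q r, |∑ u ∈ T, js F t1 M q u * js F t1 M r u| ≤ U := by
    intro q r
    refine (Finset.abs_sum_le_sum_abs _ _).trans ?_
    calc ∑ u ∈ T, |js F t1 M q u * js F t1 M r u| ≤ ∑ u ∈ T, (1 : ℝ) := by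
          refine Finset.sum_le_sum fun u _ => ?_
          rw [abs_mul]
          exact mul_le_one₀ (js_abs _ _ _ _ _) (abs_nonneg _) (js_abs _ _ _ _ _)
      _ = U := by
          rw [Finset.sum_const, nsmul_eq_mul, mul_one, hT, Nat.card_Ioc]
          congr 1
          omega
  have hoff : ∀ q ∈ W, ∀ r ∈ W, q ≠ r → |∑ u ∈ T, js F t1 M q u * js F t1 M r u| ≤ B := by
    intro q hq r hr hqr
    obtain ⟨hq1, hq2, hq3, hq4⟩ := hWm q hq
    obtain ⟨hr1, hr2, hr3, hr4⟩ := hWm r hr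
    have h2 := corr F z0 C hC hW U t1 M q r hq1 hr1 hqr (by omega) (by omega) hq2 hr2
    refine h2.trans ?_
    have hqr0 : (0 : ℝ) < q := by exact_mod_cast hq1.pos
    have hrr0 : (0 : ℝ) < r := by exact_mod_cast hr1.pos
    have hqy : (y : ℝ) ≤ q := by exact_mod_cast hq3.le
    have hry : (y : ℝ) ≤ r := by exact_mod_cast hr3.le
    have hq5 : (q : ℝ) ≤ (y : ℝ) ^ 2 := by exact_mod_cast hq4
    have hr5 : (r : ℝ) ≤ (y : ℝ) ^ 2 := by exact_mod_cast hr4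
    have hsq : (0 : ℝ) < √(q : ℝ) := Real.sqrt_pos.2 hqr0
    have hsr : (0 : ℝ) < √(r : ℝ) := Real.sqrt_pos.2 hrr0
    have hsy : (y : ℝ) ≤ √(q : ℝ) * √(r : ℝ) := by
      calc (y : ℝ) = √(y : ℝ) * √(y : ℝ) := (Real.mul_self_sqrt hy0.le).symm
        _ ≤ √(q : ℝ) * √(r : ℝ) := mul_le_mul (Real.sqrt_le_sqrt hqy) (Real.sqrt_le_sqrt hry)
            (Real.sqrt_nonneg _) (Real.sqrt_nonneg _)
    have e1 : (U : ℝ) / (q * r) * (C ^ 2 * (√(q : ℝ) * √(r : ℝ))) =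
        C ^ 2 * (U / (√(q : ℝ) * √(r : ℝ))) := by
      have e2 : (q : ℝ) * r = (√(q : ℝ) * √(r : ℝ)) * (√(q : ℝ) * √(r : ℝ)) := by
        rw [mul_mul_mul_comm, Real.mul_self_sqrt hqr0.le, Real.mul_self_sqrt hrr0.le]
      rw [e2]
      field_simp
    have e3 : (U : ℝ) / (√(q : ℝ) * √(r : ℝ)) ≤ U / y :=
      div_le_div_of_nonneg_left hU0.le hy0 hsy
    have e4 : (q : ℝ) * r ≤ U / y := by
      rw [le_div_iff₀ hy0]
      calc (q : ℝ) * r * y ≤ ((y : ℝ) ^ 2 * (y : ℝ) ^ 2) * y :=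
            mul_le_mul_of_nonneg_right (mul_le_mul hq5 hr5 hrr0.le (by positivity)) hy0.le
        _ = (y : ℝ) ^ 5 := by ring
        _ ≤ (y : ℝ) ^ 10 := pow_le_pow_right₀ hy1r (by norm_num)
        _ ≤ U := hyUr
    rw [e1]
    have e5 := mul_le_mul_of_nonneg_left e3 (sq_nonneg C)
    have e6 : B = C ^ 2 * (U / y) + U / y := by rw [hB]; ring
    rw [e6]
    linarith
  have h2 : ∑ q ∈ W, ∑ r ∈ W, (∑ u ∈ T, js F t1 M q u * js F t1 M r u) ^ 2 ≤
      n * (U : ℝ) ^ 2 + n ^ 2 * B ^ 2 := by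
    calc ∑ q ∈ W, ∑ r ∈ W, (∑ u ∈ T, js F t1 M q u * js F t1 M r u) ^ 2 ≤
        ∑ q ∈ W, ∑ r ∈ W, ((if q = r then (U : ℝ) ^ 2 else 0) + B ^ 2) := by
          refine Finset.sum_le_sum fun q hq => Finset.sum_le_sum fun r hr => ?_
          split_ifs with h3
          · have h4 : (∑ u ∈ T, js F t1 M q u * js F t1 M r u) ^ 2 ≤ (U : ℝ) ^ 2 :=
              sq_le_sq' (abs_le.1 (hdiag q r)).1 (abs_le.1 (hdiag q r)).2
            have := sq_nonneg B
            linarith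
          · have h4 : (∑ u ∈ T, js F t1 M q u * js F t1 M r u) ^ 2 ≤ B ^ 2 :=
              sq_le_sq' (abs_le.1 (hoff q hq r hr h3)).1 (abs_le.1 (hoff q hq r hr h3)).2
            linarith
      _ = n * (U : ℝ) ^ 2 + n ^ 2 * B ^ 2 := by
          have h3 : ∀ q ∈ W, ∑ r ∈ W, ((if q = r then (U : ℝ) ^ 2 else 0) + B ^ 2) =
              (U : ℝ) ^ 2 + n * B ^ 2 := by
            intro q hq
            rw [Finset.sum_add_distrib, Finset.sum_ite_eq, if_pos hq, Finset.sum_const,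
              nsmul_eq_mul]
          rw [Finset.sum_congr rfl h3, Finset.sum_const, nsmul_eq_mul]
          ring
  have h3 := h1.trans h2
  have h4 : (P.card : ℝ) * n ≤ 4 * ((U : ℝ) ^ 2 + n * B ^ 2) := by
    have h5 : ((P.card : ℝ) * n) * n ≤ (4 * ((U : ℝ) ^ 2 + n * B ^ 2)) * n := by nlinarith
    exact le_of_mul_le_mul_right h5 hn0
  have h5 : (P.card : ℝ) ≤ 4 * ((U : ℝ) ^ 2 / n + B ^ 2) := by
    have h6 : 4 * ((U : ℝ) ^ 2 / n + B ^ 2) = (4 * ((U : ℝ) ^ 2 + n * B ^ 2)) / n := by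
      field_simp
    rw [h6, le_div_iff₀ hn0]
    exact h4
  have h6 : (U : ℝ) ^ 2 / n ≤ (U : ℝ) ^ 2 / y := div_le_div_of_nonneg_left (by positivity) hy0 hn
  have h7 : B ^ 2 ≤ (C ^ 2 + 1) ^ 2 * ((U : ℝ) ^ 2 / y) := by
    have h8 : B ^ 2 = ((C ^ 2 + 1) ^ 2 * ((U : ℝ) ^ 2 / y)) * (1 / y) := by
      rw [hB]
      field_simp
    rw [h8]
    have h9 : (1 : ℝ) / y ≤ 1 := by
      rw [div_le_one hy0]
      exact hy1r
    exact mul_le_of_le_one_right (by positivity) h9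
  nlinarith

theorem mult_ (h : S_WEIL) : S_MULT := by
  intro F hF
  obtain ⟨z0, C, hC, hW⟩ := h F hF
  have hF0 : F ≠ 0 := by
    rintro rfl
    have := hF.2
    simp at this
  obtain ⟨d, U1, hsize⟩ := size F hF0
  set Y0 : ℕ := 1000000 + z0 + (20 * d + 2) with hY0
  refine ⟨8 * (1 + (C ^ 2 + 1) ^ 2), U1 + Y0 ^ 10, by positivity, fun U hU M t1 hM hMU ht => ?_⟩
  have hU1 : U1 ≤ U := by omega
  have hU2 : Y0 ^ 10 ≤ U := by omega
  have hUr : (Y0 : ℝ) ^ 10 ≤ U := by exact_mod_cast hU2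
  have hU0 : (0 : ℝ) < U := lt_of_lt_of_le (by positivity) hUr
  set x : ℝ := (U : ℝ) ^ (1 / 10 : ℝ) with hx
  have hx0 : 0 < x := Real.rpow_pos_of_pos hU0 _
  have hx10 : x ^ 10 = U := by
    rw [hx, ← Real.rpow_natCast, ← Real.rpow_mul hU0.le]
    norm_num
  have hxY : (Y0 : ℝ) ≤ x := by
    by_contra hcon
    push Not at hcon
    have := pow_lt_pow_left₀ hcon hx0.le (show 10 ≠ 0 by norm_num)
    linarith
  set y : ℕ := ⌊x⌋₊ with hy
  have hy1 : Y0 ≤ y := Nat.le_floor hxY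
  have hy2 : (y : ℝ) ≤ x := Nat.floor_le hx0.le
  have hy3 : x < y + 1 := Nat.lt_floor_add_one x
  have hyU : y ^ 10 ≤ U := by
    have h1 : (y : ℝ) ^ 10 ≤ U := by
      rw [← hx10]
      exact pow_le_pow_left₀ (Nat.cast_nonneg _) hy2 10
    exact_mod_cast h1
  have hUy : U < (y + 1) ^ 10 := by
    have h1 : (U : ℝ) < ((y : ℝ) + 1) ^ 10 := by
      rw [← hx10]
      exact pow_lt_pow_left₀ hy3 hx0.le (by norm_num)
    exact_mod_cast h1
  refine (assemble F z0 C hC hW d U1 hsize y U M t1 (by omega) (by omega) (by omega) hyU hUy hU1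
    hM hMU ht).trans ?_
  have hy0 : (1 : ℝ) ≤ y := by
    have : 1 ≤ y := by omega
    exact_mod_cast this
  have h1 : (U : ℝ) ^ 2 / y ≤ 2 * (U : ℝ) ^ (19 / 10 : ℝ) := by
    have h2 : (U : ℝ) ^ (19 / 10 : ℝ) = x ^ 19 := by
      rw [hx, ← Real.rpow_natCast, ← Real.rpow_mul hU0.le]
      norm_num
    rw [h2, ← hx10, div_le_iff₀ (by linarith)]
    have h3 : x ≤ 2 * y := by linarith
    calc (x ^ 10) ^ 2 = x ^ 19 * x := by ring
      _ ≤ x ^ 19 * (2 * y) := mul_le_mul_of_nonneg_left h3 (by positivity)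
      _ = 2 * x ^ 19 * y := by ring
  have h2 : (0 : ℝ) ≤ 4 * (1 + (C ^ 2 + 1) ^ 2) := by positivity
  calc 4 * (1 + (C ^ 2 + 1) ^ 2) * ((U : ℝ) ^ 2 / y) ≤
      4 * (1 + (C ^ 2 + 1) ^ 2) * (2 * (U : ℝ) ^ (19 / 10 : ℝ)) := mul_le_mul_of_nonneg_left h1 h2
    _ = 8 * (1 + (C ^ 2 + 1) ^ 2) * (U : ℝ) ^ (19 / 10 : ℝ) := by ring

end Pool.Agent.W108.HB
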